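import Pool.Agent.R342.SC.Main
import Pool.Agent.R342.SC.Dual
import Pool.Agent.R342.SC.Round
import Pool.Agent.R342.SC.Greedy

/-!
# The Alon–Frankl–Lovász theorem for `s`-connectors

We prove Q1 of MP_d738f8_co: for all `q ≥ 1`, `r ≥ 2` there is a positive function `φ` with
`φ(x) → 0` for `x → 0` such that every `r`-uniform `n`-vertex `s`-connector `H` satisfies
`H → t K_r^r` as soon as `n ≥ (r-1) ‖t‖_∞ + Λ_t + 1 + n φ(s/n)`.

The proof is elementary (no topology). (1) An energy increment argument gives a partition of the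
vertex set into a bounded number of classes such that for all but few `r`-tuples of classes there is
a colour `j` which is robust: it has an edge crossing any large subsets of the `r` classes. (2) A
fractional matching of robust tuples in colour `j` is realised greedily by a matching of edges of
colour `j`. So if colour `j` has no matching of size `t_j` then linear programming duality gives a
fractional cover `c_j` of the robust tuples of colour `j` with weight about `t_j`. (3) A rounding
argument (basic solutions of a linear program in the space of types) gives `r` types of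
vertices, of positive density each, with `c_j(x_1) + ... + c_j(x_r) < 1` for all colours `j`, and
among the tuples of points of these types there is one in a tuple of classes with a robust colour: a
contradiction.
-/

set_option autoImplicit false

namespace Pool.Agent.Results.MP_d738f8_co.ConnectorMatchingRamsey

open Finset Filter Topology

/-- `H` is an `r`-uniform hypergraph on the vertex set `Fin n`. -/
def IsUniform {n : ℕ} (r : ℕ) (H : Finset (Finset (Fin n))) : Prop := ∀ e ∈ H, e.card = r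

/-- `H` is an `s`-connector: for pairwise disjoint vertex sets `A_1, …, A_r` with at least `s`
elements each there are `v_i ∈ A_i` such that `{v_1, …, v_r}` is an edge of `H`. -/
def IsConnector {n : ℕ} (r s : ℕ) (H : Finset (Finset (Fin n))) : Prop :=
  ∀ A : Fin r → Finset (Fin n), (∀ i, s ≤ (A i).card) →
    (∀ i j, i ≠ j → Disjoint (A i) (A j)) →
      ∃ v : Fin r → Fin n, (∀ i, v i ∈ A i) ∧ univ.image v ∈ H

/-- `H → t K_r^r`: for every colouring of the edges of `H` with `q` colours there are a colour `j`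
and `t_j` pairwise disjoint edges of colour `j`. -/
def Arrows {n q : ℕ} (H : Finset (Finset (Fin n))) (t : Fin q → ℕ) : Prop :=
  ∀ χ : Finset (Fin n) → Fin q, ∃ j : Fin q, ∃ M : Finset (Finset (Fin n)),
    M ⊆ H ∧ (∀ e ∈ M, χ e = j) ∧ (∀ e ∈ M, ∀ f ∈ M, e ≠ f → Disjoint e f) ∧ M.card = t j

/-- The property for the value `y` of `φ` at `x`. -/
def Good (q r : ℕ) (x y : ℝ) : Prop :=
  ∀ (s n : ℕ) (t : Fin q → ℕ), 1 ≤ s → s ≤ n → (s : ℝ) / n = x → (∀ j, 1 ≤ t j) →
    ((r : ℝ) - 1) * (univ.sup t : ℕ) + ∑ j, ((t j : ℝ) - 1) + 1 + n * y ≤ n →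
    ∀ H : Finset (Finset (Fin n)), IsUniform r H → IsConnector r s H → Arrows H t

theorem small (q r : ℕ) (hr : 2 ≤ r) (ε : ℝ) (hε : 0 < ε) :
    ∃ x0 : ℝ, 0 < x0 ∧ ∀ x, x ≤ x0 → Good q r x ε := by
  classical
  obtain ⟨x0, hx0, h⟩ := Pool.Agent.R342.SC.main Pool.Agent.R342.SC.greedy
    Pool.Agent.R342.SC.dual Pool.Agent.R342.SC.round q r hr ε hε
  refine ⟨x0, hx0, ?_⟩
  intro x hx s n t hs hsn hxe ht hmain H hH hconn χ
  have hn : (0 : ℝ) < n := by exact_mod_cast (by omega : 0 < n)
  let Ed : Fin q → (Fin r → Fin n) → Prop := fun j v => univ.image v ∈ H ∧ χ (univ.image v) = j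
  obtain ⟨j, M, ⟨hM1, hM2⟩, hM3⟩ := h (Fin n) s t (univ.sup t) Ed hs (by
      rw [Fintype.card_fin]
      rw [div_eq_iff hn.ne'] at hxe
      rw [hxe]
      exact mul_le_mul_of_nonneg_right hx hn.le) ht (fun j => le_sup (mem_univ j)) (by
      rw [Fintype.card_fin]
      linarith) (by
      intro A hA hd
      obtain ⟨v, hv, hv'⟩ := hconn A hA fun i j hij => hd hij
      exact ⟨χ (univ.image v), v, hv, hv', rfl⟩)
  have hr0 : 0 < r := by omega
  have hdis : ∀ v ∈ M, ∀ v' ∈ M, v ≠ v' → Disjoint (univ.image v) (univ.image v') := by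
    intro v hv v' hv' hne
    rw [Finset.disjoint_left]
    intro y hy hy'
    rw [mem_image] at hy hy'
    obtain ⟨l, _, hl⟩ := hy
    obtain ⟨l', _, hl'⟩ := hy'
    exact hM2 v hv v' hv' hne l l' (hl.trans hl'.symm)
  refine ⟨j, M.image fun v => univ.image v, ?_, ?_, ?_, ?_⟩
  · intro e he
    obtain ⟨v, hv, rfl⟩ := mem_image.1 he
    exact (hM1 v hv).1.1
  · intro e he
    obtain ⟨v, hv, rfl⟩ := mem_image.1 he
    exact (hM1 v hv).1.2
  · intro e he f hf hef
    obtain ⟨v, hv, rfl⟩ := mem_image.1 he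
    obtain ⟨v', hv', rfl⟩ := mem_image.1 hf
    exact hdis v hv v' hv' fun h => hef (by rw [h])
  · rw [card_image_of_injOn, hM3]
    intro v hv v' hv' hvv
    by_contra hne
    have h1 := hdis v hv v' hv' hne
    have hvv' : univ.image v = univ.image v' := hvv
    rw [← hvv', disjoint_self_iff_empty] at h1
    have h2 : v ⟨0, hr0⟩ ∈ univ.image v := mem_image_of_mem _ (mem_univ _)
    rw [h1] at h2
    simp at h2

/-- **Q1 of MP_d738f8_co**, positive answer. -/
theorem result : ∀ q r : ℕ, 1 ≤ q → 2 ≤ r → ∃ φ : ℝ → ℝ,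
    (∀ x, 0 < x → x ≤ 1 → 0 < φ x) ∧ Tendsto φ (𝓝[>] 0) (𝓝 0) ∧
    ∀ (s n : ℕ) (t : Fin q → ℕ), 1 ≤ s → s ≤ n → (∀ j, 1 ≤ t j) →
      ((r : ℝ) - 1) * (univ.sup t : ℕ) + ∑ j, ((t j : ℝ) - 1) + 1 + n * φ ((s : ℝ) / n) ≤ n →
      ∀ H : Finset (Finset (Fin n)), IsUniform r H → IsConnector r s H → Arrows H t := by
  intro q r _ hr
  let S : ℝ → Set ℝ := fun x => {y | 0 < y ∧ Good q r x y}
  have hbdd : ∀ x, BddBelow (S x) := fun x => ⟨0, fun y hy => hy.1.le⟩
  have hne : ∀ x, (S x).Nonempty := by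
    intro x
    refine ⟨1, one_pos, ?_⟩
    intro s n t hs hsn _ ht hmain
    exfalso
    have h1 : 0 ≤ ∑ j, ((t j : ℝ) - 1) := sum_nonneg fun j _ => by
      have : (1 : ℝ) ≤ t j := by exact_mod_cast ht j
      linarith
    have h2 : 0 ≤ ((r : ℝ) - 1) * (univ.sup t : ℕ) := by
      have : (2 : ℝ) ≤ r := by exact_mod_cast hr
      have h3 : (0 : ℝ) ≤ (univ.sup t : ℕ) := Nat.cast_nonneg _
      exact mul_nonneg (by linarith) h3
    linarith
  have hS0 : ∀ x, 0 ≤ sInf (S x) := fun x => Real.sInf_nonneg fun y hy => hy.1.le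
  refine ⟨fun x => sInf (S x) + |x|, ?_, ?_, ?_⟩
  · intro x hx _
    have := hS0 x
    have h1 : 0 < |x| := abs_pos.2 hx.ne'
    show 0 < sInf (S x) + |x|
    linarith
  · rw [Metric.tendsto_nhdsWithin_nhds]
    intro ε hε
    obtain ⟨x0, hx0, h⟩ := small q r hr (ε / 2) (by positivity)
    refine ⟨min x0 (ε / 2), by positivity, ?_⟩
    intro x hx hdx
    rw [Real.dist_eq, sub_zero] at hdx ⊢
    have hxp : 0 < x := hx
    have h1 : x ≤ x0 := (le_abs_self x).trans (hdx.le.trans (min_le_left _ _))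
    have h2 : sInf (S x) ≤ ε / 2 := csInf_le (hbdd x) ⟨by positivity, h x h1⟩
    have h3 : |x| < ε / 2 := hdx.trans_le (min_le_right _ _)
    have h4 := hS0 x
    have h5 := abs_nonneg x
    rw [abs_of_nonneg (by linarith)]
    linarith
  · intro s n t hs hsn ht hmain
    have hn : (0 : ℝ) < n := by exact_mod_cast (by omega : 0 < n)
    have hx : 0 < (s : ℝ) / n := by
      have : (0 : ℝ) < s := by exact_mod_cast hs
      positivity
    have h1 : sInf (S ((s : ℝ) / n)) < sInf (S ((s : ℝ) / n)) + |(s : ℝ) / n| := by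
      have := abs_pos.2 hx.ne'
      linarith
    obtain ⟨y, hy, hy'⟩ := exists_lt_of_csInf_lt (hne _) h1
    refine hy.2 s n t hs hsn rfl ht ?_
    have h2 : (n : ℝ) * y ≤ n * (sInf (S ((s : ℝ) / n)) + |(s : ℝ) / n|) :=
      mul_le_mul_of_nonneg_left hy'.le hn.le
    linarith

end Pool.Agent.Results.MP_d738f8_co.ConnectorMatchingRamsey
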